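import Pool.Agent.helper4.HL.Spec

/-!
# Quantum cat maps at generic Planck mantissas: necessity, assembly
-/

open scoped BigOperators ComplexOrder ComplexConjugate Topology

namespace Pool.Agent.HL

open Pool.Agent.helper86.CM Pool.Agent.QS Filter MeasureTheory

noncomputable section

theorem NCF_beta_zero (B : Lat 1 ≃ₗ[ℤ] Lat 1) (t : ℤ) (n : Lat 1) : beta B t n 0 = 0 := by
  unfold beta
  rw [map_zero, omega_zero_right]
  simp

theorem NCF_hx (B : Lat 1 ≃ₗ[ℤ] Lat 1) (t : ℤ) (X : ℝ) (n m : Lat 1) :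
    hx B t X ((n, 0) : PP) ((m, 0) : PP) = 0 := by
  unfold hx hh
  rw [NCF_beta_zero, NCF_beta_zero]
  simp

theorem NCF_int (n : Lat 1) (μ : Measure T2) [IsFiniteMeasure μ] :
    Integrable (fun y => chr n y) μ := by
  refine Integrable.of_bound (UnitAddTorus.mFourier n).continuous.aestronglyMeasurable 1
    (Filter.Eventually.of_forall fun y => ?_)
  exact ((UnitAddTorus.mFourier n).norm_coe_le_norm y).trans_eq UnitAddTorus.mFourier_norm

/-- the integral of `|p|²` -/
theorem NCF_sq (μ : Measure T2) [IsProbabilityMeasure μ] (S : Finset (Lat 1)) (p : Lat 1 → ℂ) :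
    ∫ y, ‖∑ n ∈ S, p n * chr n y‖ ^ 2 ∂μ =
      (∑ n ∈ S, ∑ m ∈ S, conj (p n) * p m * ∫ y, chr (m - n) y ∂μ).re := by
  have h1 : ((∫ y, ‖∑ n ∈ S, p n * chr n y‖ ^ 2 ∂μ : ℝ) : ℂ) =
      ∑ n ∈ S, ∑ m ∈ S, conj (p n) * p m * ∫ y, chr (m - n) y ∂μ := by
    rw [← integral_complex_ofReal]
    have h2 : ∀ y : T2, (((‖∑ n ∈ S, p n * chr n y‖ ^ 2 : ℝ)) : ℂ) =
        ∑ n ∈ S, ∑ m ∈ S, conj (p n) * p m * chr (m - n) y := by
      intro y
      push_cast
      rw [← Complex.conj_mul', map_sum, Finset.sum_mul_sum]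
      refine Finset.sum_congr rfl fun n _ => Finset.sum_congr rfl fun m _ => ?_
      have h3 : chr (m - n) y = conj (chr n y) * chr m y := by
        unfold chr
        rw [sub_eq_neg_add, UnitAddTorus.mFourier_add, UnitAddTorus.mFourier_neg]
      rw [h3, map_mul]
      ring
    simp only [h2]
    rw [integral_finsetSum _ fun n _ => integrable_finsetSum _ fun m _ =>
      (NCF_int (m - n) μ).const_mul _]
    refine Finset.sum_congr rfl fun n _ => ?_
    rw [integral_finsetSum _ fun m _ => (NCF_int (m - n) μ).const_mul _]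
    refine Finset.sum_congr rfl fun m _ => ?_
    rw [integral_const_mul]
  rw [← h1, Complex.ofReal_re]

theorem NCF (NEL : NEL_stmt) (BOC : Pool.Agent.QS.BOC_stmt) (KIQ : KIQ_stmt) (SPL : SPL_stmt) :
    NCF_stmt := by
  intro A B hC hB c F hc hG hM
  obtain ⟨Φ, hPD, h1, hinv, hF1, hF2⟩ := NEL A B hC hB c F hc hM
  have hF0 : F 0 = 1 := by
    rw [← hF1 0]
    exact h1
  obtain ⟨μ, hμ, hμF⟩ := BOC F hF0 (by
    intro m x
    have h := hPD m (fun i => (x i, 0))
    have e : (Matrix.of fun i j : Fin m => F (x j - x i)) =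
        Matrix.of fun i j : Fin m => ee (-(hx B A.trace (((lam A.trace) - (lam A.trace)⁻¹) * c)⁻¹
          ((x i, 0) : PP) ((x j, 0) : PP))) * Φ (((x j, 0) : PP) - ((x i, 0) : PP)) := by
      ext i j
      rw [Matrix.of_apply, Matrix.of_apply, NCF_hx, neg_zero, ee_zero, one_mul, ← hF1,
        Prod.mk_sub_mk, sub_zero]
    rw [e]
    exact h)
  have hCen : Cen μ := by
    intro S p h0
    have h := KIQ B A.trace hC _ hG Φ hPD h1 hinv (fun n => by rw [hF1, hF2]) S p h0
    rw [NCF_sq]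
    simp only [hμF]
    simp only [hF1] at h
    exact h
  have hμB : ∀ n, ∫ y, chr (B n) y ∂μ = ∫ y, chr n y ∂μ := by
    intro n
    rw [hμF, hμF, ← hF1, ← hF1]
    have h := hinv (n, 0)
    rw [BB] at h
    simpa using h
  obtain ⟨ν, hν, hνB, hνF⟩ := SPL B A.trace hC μ hμ hCen hμB
  refine ⟨ν, hν, fun n => ?_, fun n => ?_⟩
  · rw [← hB]
    exact hνB n
  · rw [← hμF]
    exact hνF n

end

end Pool.Agent.HL
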